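import Pool.Agent.Lib.MP_ded8ec_lc.SG.Main

/-!
# Seymour graphs among the 4-connected graphs of large degeneracy

The definitions used in the statement are in `Pool.Agent.Lib.MP_ded8ec_lc.SG.Defs`:
* `cut G X`: the edges with exactly one end in `X`;
* `Admissible G F`: `F` is a set of edges and `|C ∩ F| ≤ |C ∖ F|` for every circuit `C`;
* `IsSeymour G`: for every admissible `F` there are `|F|` pairwise disjoint cuts (a family indexed by `F`),
  each of which contains exactly one edge of `F`;
* `Conn4 G`: at least 5 vertices, and connected after the removal of at most 3 vertices;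
* `Apex G`: `G - v` is bipartite for some vertex `v`.
-/

namespace Pool.Agent.Results.MP_ded8ec_lc.DenseFourConnected

open Pool.Agent.Lib.MPded8ec.SG

/-- Let `G` be a finite 4-connected graph with a nonempty set `X` of vertices such that every vertex of `X`
has at least `3 * 2 ^ 148` neighbours in `X`. Then `G` is a Seymour graph if and only if `G - v` is bipartite
for some vertex `v`. -/
theorem result (V : Type) [Fintype V] (G : SimpleGraph V) (h4 : Conn4 G)
    (hX : ∃ X : Finset V, X.Nonempty ∧ ∀ x ∈ X, 3 * 2 ^ 148 ≤ {y | y ∈ X ∧ G.Adj x y}.ncard) :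
    IsSeymour G ↔ Apex G :=
  main V G h4 hX

end Pool.Agent.Results.MP_ded8ec_lc.DenseFourConnected
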